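import Pool.Agent.H53.SS.Targets
import Pool.Agent.H52.FT.Words
import Pool.Agent.H52.SP.Num

/-!
# The lower bound `n² - n^(1+o(1))` and the order of `n² - f(n)` (MP_81fcf0_co)
-/

set_option autoImplicit false

open Filter Topology

namespace Pool.Agent.H90.SPF

open Pool.Agent.H52.FT Pool.Agent.H52.FT.Words Pool.Agent.H53.SS

/-- universal words -/
def Univ {n : ℕ} (γ : List (Fin n)) : Prop :=
  ∀ π : Equiv.Perm (Fin n), (List.ofFn π).Sublist γ

/-- the minimum length -/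
noncomputable def mlen (n : ℕ) : ℕ :=
  sInf {L | ∃ γ : List (Fin n), Univ γ ∧ γ.length = L}

theorem lower_word (h : T_FIE) (ε : ℝ) (hε : 0 < ε) : ∃ C : ℝ, 0 < C ∧ ∀ n : ℕ, 1 ≤ n →
    (n : ℝ) ^ 2 - C * (n : ℝ) ^ (1 + ε) ≤ (mlen n : ℝ) := by
  obtain ⟨C, hC, hb⟩ := h ε hε
  refine ⟨C, hC, fun n hn => ?_⟩
  have hne : {L | ∃ γ : List (Fin n), Univ γ ∧ γ.length = L}.Nonempty := by
    obtain ⟨γ, hγ⟩ := exists_universal n
    exact ⟨γ.length, γ, hγ, rfl⟩
  obtain ⟨γ, hγ, hlen⟩ := Nat.sInf_mem hne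
  have hf : mlen n = γ.length := hlen.symm
  rw [hf]
  have h1 := hb (Fin n) Finset.univ γ (by rw [Finset.card_univ, Fintype.card_fin]; exact hn)
    (uni_of_universal hγ)
  rwa [tot_univ, Finset.card_univ, Fintype.card_fin] at h1

theorem upper_word (n : ℕ) (hn : 256 ≤ n) : (n : ℝ) ≤ (n : ℝ) ^ 2 - (mlen n : ℝ) := by
  have h1 : (mlen n : ℝ) ≤ (n : ℝ) ^ 2 - n * Real.logb 2 (Real.logb 2 n) + 2 * n :=
    Pool.Agent.H52.SP.main_bound n (by omega)
  have hn' : (256 : ℝ) ≤ n := by exact_mod_cast hn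
  have h8 : (8 : ℝ) ≤ Real.logb 2 n := by
    rw [Real.le_logb_iff_rpow_le (by norm_num) (by linarith)]
    norm_num
    exact hn
  have h3 : (3 : ℝ) ≤ Real.logb 2 (Real.logb 2 n) := by
    rw [Real.le_logb_iff_rpow_le (by norm_num) (by linarith)]
    norm_num
    exact h8
  nlinarith

theorem order_word (h : T_FIE) :
    Tendsto (fun n : ℕ => Real.log ((n : ℝ) ^ 2 - mlen n) / Real.log n) atTop (𝓝 1) := by
  have hlog : Tendsto (fun n : ℕ => Real.log (n : ℝ)) atTop atTop :=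
    Real.tendsto_log_atTop.comp tendsto_natCast_atTop_atTop
  rw [Metric.tendsto_atTop]
  intro δ hδ
  obtain ⟨C, hC, hb⟩ := lower_word h (δ / 3) (by positivity)
  have hev : ∀ᶠ n : ℕ in atTop, |Real.log C| / (δ / 3) + 1 ≤ Real.log (n : ℝ) :=
    hlog.eventually_ge_atTop _
  obtain ⟨n₀, hn₀⟩ := Filter.eventually_atTop.1 (hev.and (eventually_ge_atTop 256))
  refine ⟨n₀, fun n hn => ?_⟩
  obtain ⟨hl, hn256⟩ := hn₀ n hn
  have hn' : (256 : ℝ) ≤ n := by exact_mod_cast hn256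
  have hn0 : (0 : ℝ) < n := by linarith
  have hlp : 0 < Real.log n := by
    have : 0 ≤ |Real.log C| / (δ / 3) := by positivity
    linarith
  have hup := upper_word n hn256
  have hlo := hb n (by omega)
  set A : ℝ := (n : ℝ) ^ 2 - mlen n with hA
  have hA1 : (n : ℝ) ≤ A := hup
  have hA0 : 0 < A := by linarith
  have hA2 : A ≤ C * (n : ℝ) ^ (1 + δ / 3) := by rw [hA]; linarith
  have h1 : Real.log n ≤ Real.log A := Real.log_le_log hn0 hA1
  have h2 : Real.log A ≤ Real.log C + (1 + δ / 3) * Real.log n := by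
    rw [← Real.log_rpow hn0, ← Real.log_mul hC.ne' (Real.rpow_pos_of_pos hn0 _).ne']
    exact Real.log_le_log hA0 hA2
  have h3 : |Real.log C| ≤ δ / 3 * Real.log n := by
    have h4 : |Real.log C| / (δ / 3) ≤ Real.log n := by linarith
    rw [div_le_iff₀ (by positivity)] at h4
    linarith
  have h5 : Real.log C ≤ |Real.log C| := le_abs_self _
  rw [Real.dist_eq, abs_lt]
  constructor
  · have : 1 ≤ Real.log A / Real.log n := by rw [le_div_iff₀ hlp]; linarith
    linarith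
  · have : Real.log A / Real.log n ≤ 1 + 2 * (δ / 3) := by
      rw [div_le_iff₀ hlp]
      nlinarith
    linarith

end Pool.Agent.H90.SPF
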